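import Pool.Agent.J6H92.FQ.Pair

/-!
# The bound for the sum of the determinants
-/

set_option autoImplicit false
set_option linter.unusedSectionVars false
set_option linter.unusedSimpArgs false
set_option linter.unusedVariables false

namespace Pool.Agent.J6H92.FQ

open Finset Matrix MeasureTheory Pool.Agent.Helper484 Pool.Agent.Y568.FL
open scoped ENNReal

variable {N d m : ℕ}

lemma tl_meas (f : ℝ → ℝ≥0∞) : Measurable (tl f) := by
  apply Antitone.measurable
  intro s t hst
  exact lintegral_mono_set (Set.Ioi_subset_Ioi hst)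

lemma gI_meas {z : Fin N → Fin m → ℝ} {f : Fin N → ℝ → ℝ≥0∞} (hf : ∀ j, Measurable (f j))
    (I : Fin d → Fin N) : Measurable (gI z f I) := by
  classical
  unfold gI
  refine Finset.measurable_prod _ fun j _ => ?_
  have hc : Measurable fun q : Fin m → ℝ => z j ⬝ᵥ q := by
    have : Continuous fun q : Fin m → ℝ => z j ⬝ᵥ q := by
      simp only [dotProduct]; fun_prop
    exact this.measurable
  by_cases h : j ∈ univ.image I
  · simp only [if_pos h]
    exact (tl_meas _).comp hc
  · simp only [if_neg h]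
    exact (hf j).comp hc

lemma int_exp : ∫⁻ t : ℝ, ENNReal.ofReal (Real.exp (-t ^ 2 / 2)) =
    ENNReal.ofReal (√(2 * Real.pi)) := by
  have h1 : ∀ t : ℝ, Real.exp (-t ^ 2 / 2) = Real.exp (-(1/2) * t ^ 2) := fun t => by
    congr 1; ring
  simp only [h1]
  rw [← ofReal_integral_eq_lintegral_ofReal, integral_gaussian]
  · congr 2; ring
  · exact integrable_exp_neg_mul_sq (by norm_num : (0:ℝ) < 1/2)
  · exact Filter.Eventually.of_forall fun t => (Real.exp_pos _).le

lemma int_gauss (m : ℕ) : ∫⁻ q : Fin m → ℝ, ENNReal.ofReal (Real.exp (-(q ⬝ᵥ q) / 2)) =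
    ENNReal.ofReal (√(2 * Real.pi) ^ m) := by
  simp only [← prod_ofReal_exp]
  rw [lint_prod (fun t => ENNReal.ofReal (Real.exp (-t ^ 2 / 2))) (by fun_prop) m, int_exp,
    ENNReal.ofReal_pow (Real.sqrt_nonneg _)]

lemma Cc_nonneg {p : ℝ} (hp : 0 ≤ p) : 0 ≤ Cc p := by
  unfold Cc
  positivity

lemma Cc_ge {p θ : ℝ} (hp : 0 ≤ p) (hθ : 0 < θ) :
    Real.exp (p / 2 * Real.log (θ / (2 * Real.pi)) + (p - θ) / 2) ≤ Cc p := by
  unfold Cc
  rcases hp.eq_or_lt with rfl | h
  · simp only [zero_div, zero_mul, zero_add, Real.rpow_zero, zero_sub]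
    rw [← Real.exp_zero]
    apply Real.exp_le_exp.mpr
    linarith
  · have hpi : 0 < 2 * Real.pi := by positivity
    rw [Real.rpow_def_of_pos (by positivity)]
    apply Real.exp_le_exp.mpr
    rw [Real.log_div hθ.ne' hpi.ne', Real.log_div h.ne' hpi.ne']
    have h1 : Real.log (θ / p) ≤ θ / p - 1 := Real.log_le_sub_one_of_pos (by positivity)
    rw [Real.log_div hθ.ne' h.ne'] at h1
    have h2 : p * (Real.log θ - Real.log p) ≤ p * (θ / p - 1) := mul_le_mul_of_nonneg_left h1 hp
    have h3 : p * (θ / p - 1) = θ - p := by field_simp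
    rw [h3] at h2
    nlinarith

/-- weighted AM-GM over the feasible bases -/
lemma amgm {ι : Type*} [DecidableEq ι] (s : Finset (Fin d → Fin N)) (w : (Fin d → Fin N) → ℝ)
    (hw : ∀ I ∈ s, 0 ≤ w I) (hw1 : ∑ I ∈ s, w I = 1) (S g : Fin N → ℝ) (hS : ∀ j, 0 ≤ S j)
    (hg : ∀ j, 0 ≤ g j) :
    ∏ j, (g j ^ (∑ I ∈ s.filter (fun I => j ∉ univ.image I), w I) *
      S j ^ (1 - ∑ I ∈ s.filter (fun I => j ∉ univ.image I), w I)) ≤
    ∑ I ∈ s, w I * ∏ j, (if j ∈ univ.image I then S j else g j) := by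
  classical
  have h1 := Real.geom_mean_le_arith_mean_weighted s w
    (fun I => ∏ j, (if j ∈ univ.image I then S j else g j)) hw hw1 (fun I _ =>
      Finset.prod_nonneg fun j _ => by split_ifs <;> [exact hS j; exact hg j])
  refine le_trans (le_of_eq ?_) h1
  have h2 : ∀ I ∈ s, (∏ j, (if j ∈ univ.image I then S j else g j)) ^ w I =
      ∏ j, (if j ∈ univ.image I then S j else g j) ^ w I := by
    intro I _
    exact (Real.finsetProd_rpow _ _ (fun j _ => by split_ifs <;> [exact hS j; exact hg j]) _).symm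
  rw [Finset.prod_congr rfl h2, Finset.prod_comm]
  refine Finset.prod_congr rfl fun j _ => ?_
  have h3 : ∏ I ∈ s, (if j ∈ univ.image I then S j else g j) ^ w I =
      (∏ I ∈ s.filter (fun I => j ∉ univ.image I), g j ^ w I) *
      (∏ I ∈ s.filter (fun I => ¬ j ∉ univ.image I), S j ^ w I) := by
    rw [← Finset.prod_filter_mul_prod_filter_not s (fun I => j ∉ univ.image I)]
    congr 1
    · refine Finset.prod_congr rfl fun I hI => ?_
      rw [if_neg (Finset.mem_filter.mp hI).2]
    · refine Finset.prod_congr rfl fun I hI => ?_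
      rw [if_pos (not_not.mp (Finset.mem_filter.mp hI).2)]
  rw [h3, ← Real.rpow_sum_of_nonneg (hg j) (fun I hI => hw I (Finset.mem_filter.mp hI).1),
    ← Real.rpow_sum_of_nonneg (hS j) (fun I hI => hw I (Finset.mem_filter.mp hI).1)]
  congr 2
  have h4 := Finset.sum_filter_add_sum_filter_not s (fun I => j ∉ univ.image I) w
  rw [hw1] at h4
  linarith

theorem SD_bound {x : Fin N → Fin d → ℝ} {b : Fin N → ℝ} (hx : Fr x) (hgen : Gen x b)
    (hN : N = d + m) (hm : 0 < m) : SD x b ^ 2 ≤ ((N : ℝ) / m) ^ m := by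
  classical
  obtain ⟨z, hco⟩ := exists_co hx hN
  have hG0 : 0 ≤ SD x b := Finset.sum_nonneg fun I _ => abs_nonneg _
  rcases hG0.eq_or_lt with h0 | hG
  · rw [← h0]
    exact le_trans (by norm_num : (0:ℝ) ^ 2 ≤ 0) (by positivity)
  set G := SD x b with hGdef
  set w : (Fin d → Fin N) → ℝ := fun I => |D x I| / G with hw
  have hw0 : ∀ I, 0 ≤ w I := fun I => by positivity
  have hw1 : ∑ I ∈ FF x b, w I = 1 := by
    simp only [hw, ← Finset.sum_div]
    exact div_self hG.ne'
  set p : Fin N → ℝ := fun j => ∑ I ∈ (FF x b).filter (fun I => j ∉ univ.image I), w I with hp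
  have hp0 : ∀ j, 0 ≤ p j := fun j => Finset.sum_nonneg fun I _ => hw0 I
  have hp1 : ∀ j, p j ≤ 1 := fun j => by
    rw [← hw1]
    exact Finset.sum_le_sum_of_subset_of_nonneg (Finset.filter_subset _ _) fun I _ _ => hw0 I
  have hpsum : ∑ j, p j = m := by
    simp only [hp, Finset.sum_filter]
    rw [Finset.sum_comm]
    have h1 : ∀ I ∈ FF x b, ∑ j, (if j ∉ univ.image I then w I else 0) = w I * m := by
      intro I hI
      have hinj := (Finset.mem_filter.mp hI).2.1.injective
      rw [← Finset.sum_filter, Finset.sum_const, nsmul_eq_mul, mul_comm]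
      congr 1
      have h2 : univ.filter (fun j => j ∉ univ.image I) = (univ.image I)ᶜ := by
        ext j; simp
      rw [h2, Finset.card_compl, Finset.card_image_of_injective _ hinj, Fintype.card_fin,
        Finset.card_univ, Fintype.card_fin, hN]
      simp
    rw [Finset.sum_congr rfl h1, ← Finset.sum_mul, hw1, one_mul]
  choose g S hgood using fun j => good (p j) (hp0 j) (hp1 j)
  have ht := tile hco hgen (f := fun j s => ENNReal.ofReal (g j s))
    (fun j => (hgood j).meas.ennreal_ofReal)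
  have ht1 : ∏ j, ∫⁻ t, ENNReal.ofReal (g j t) ≤ 1 :=
    Finset.prod_le_one' fun j _ => (hgood j).le_one
  have ht2 := ht.trans ht1
  -- pointwise lower bound
  have hlow : ∀ q : Fin m → ℝ, ENNReal.ofReal (G * (∏ j, Cc (p j)) * Real.exp (-(q ⬝ᵥ q) / 2)) ≤
      ∑ I ∈ FF x b, ENNReal.ofReal |D x I| * gI z (fun j s => ENNReal.ofReal (g j s)) I q := by
    intro q
    have a1 : ∀ I : Fin d → Fin N, ENNReal.ofReal (∏ j, (if j ∈ univ.image I then S j (z j ⬝ᵥ q) else
        g j (z j ⬝ᵥ q))) ≤ gI z (fun j s => ENNReal.ofReal (g j s)) I q := by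
      intro I
      unfold gI
      rw [ENNReal.ofReal_prod_of_nonneg]
      · refine Finset.prod_le_prod' fun j _ => ?_
        split_ifs
        · exact (hgood j).tail _
        · exact le_rfl
      · intro j _
        split_ifs
        · exact (hgood j).nonneg' _
        · exact (hgood j).nonneg _
    have a2 : ENNReal.ofReal (∑ I ∈ FF x b, |D x I| * ∏ j, (if j ∈ univ.image I then
        S j (z j ⬝ᵥ q) else g j (z j ⬝ᵥ q))) ≤
        ∑ I ∈ FF x b, ENNReal.ofReal |D x I| * gI z (fun j s => ENNReal.ofReal (g j s)) I q := by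
      rw [ENNReal.ofReal_sum_of_nonneg]
      · refine Finset.sum_le_sum fun I _ => ?_
        rw [ENNReal.ofReal_mul (abs_nonneg _)]
        gcongr
        exact a1 I
      · intro I _
        refine mul_nonneg (abs_nonneg _) (Finset.prod_nonneg fun j _ => ?_)
        split_ifs
        · exact (hgood j).nonneg' _
        · exact (hgood j).nonneg _
    refine le_trans (ENNReal.ofReal_le_ofReal ?_) a2
    have a3 := amgm (ι := Fin N) (FF x b) w (fun I _ => hw0 I) hw1 (fun j => S j (z j ⬝ᵥ q))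
      (fun j => g j (z j ⬝ᵥ q)) (fun j => (hgood j).nonneg' _) (fun j => (hgood j).nonneg _)
    have a4 : ∑ I ∈ FF x b, |D x I| * ∏ j, (if j ∈ univ.image I then S j (z j ⬝ᵥ q) else
        g j (z j ⬝ᵥ q)) = G * ∑ I ∈ FF x b, w I * ∏ j, (if j ∈ univ.image I then
        S j (z j ⬝ᵥ q) else g j (z j ⬝ᵥ q)) := by
      rw [Finset.mul_sum]
      refine Finset.sum_congr rfl fun I _ => ?_
      rw [← mul_assoc]
      congr 1
      simp only [hw]
      field_simp
    rw [a4, mul_assoc]
    refine mul_le_mul_of_nonneg_left (le_trans ?_ a3) hG.le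
    have a5 : (∏ j, Cc (p j)) * Real.exp (-(q ⬝ᵥ q) / 2) =
        ∏ j, (Cc (p j) * Real.exp (-(z j ⬝ᵥ q) ^ 2 / 2)) := by
      rw [Finset.prod_mul_distrib, ← Real.exp_sum]
      congr 2
      rw [← hco.par q, ← Finset.sum_div, Finset.sum_neg_distrib]
    rw [a5]
    refine Finset.prod_le_prod (fun j _ => mul_nonneg (Cc_nonneg (hp0 j)) (Real.exp_pos _).le)
      fun j _ => ?_
    exact (hgood j).low _
  have hint : ENNReal.ofReal (G * (∏ j, Cc (p j)) * √(2 * Real.pi) ^ m) ≤ 1 := by
    have hmono : ∫⁻ q : Fin m → ℝ, ENNReal.ofReal (G * (∏ j, Cc (p j)) *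
        Real.exp (-(q ⬝ᵥ q) / 2)) ≤ ∫⁻ q : Fin m → ℝ, ∑ I ∈ FF x b, ENNReal.ofReal |D x I| *
          gI z (fun j s => ENNReal.ofReal (g j s)) I q := lintegral_mono hlow
    refine le_trans (le_of_eq ?_) (le_trans hmono (le_trans (le_of_eq ?_) ht2))
    · have hc : 0 ≤ G * ∏ j, Cc (p j) :=
        mul_nonneg hG.le (Finset.prod_nonneg fun j _ => Cc_nonneg (hp0 j))
      simp only [ENNReal.ofReal_mul hc]
      rw [lintegral_const_mul _ (by
        have : Continuous fun q : Fin m → ℝ => Real.exp (-(q ⬝ᵥ q) / 2) := by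
          simp only [dotProduct]; fun_prop
        exact this.measurable.ennreal_ofReal), int_gauss]
    · rw [lintegral_finsetSum]
      · refine Finset.sum_congr rfl fun I _ => ?_
        rw [lintegral_const_mul]
        exact gI_meas (fun j => (hgood j).meas.ennreal_ofReal) I
      · intro I _
        exact (gI_meas (fun j => (hgood j).meas.ennreal_ofReal) I).const_mul _
  rw [ENNReal.ofReal_le_one] at hint
  -- numerical part
  have hNpos : 0 < N := by omega
  set θ : ℝ := (m : ℝ) / N with hθ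
  have hθ0 : 0 < θ := by positivity
  have hprod : Real.exp ((m : ℝ) / 2 * Real.log (θ / (2 * Real.pi))) ≤ ∏ j, Cc (p j) := by
    have b1 : ∏ j, Real.exp (p j / 2 * Real.log (θ / (2 * Real.pi)) + (p j - θ) / 2) ≤
        ∏ j, Cc (p j) :=
      Finset.prod_le_prod (fun j _ => (Real.exp_pos _).le) fun j _ => Cc_ge (hp0 j) hθ0
    refine le_trans (le_of_eq ?_) b1
    rw [← Real.exp_sum]
    congr 1
    rw [Finset.sum_add_distrib, ← Finset.sum_mul, ← Finset.sum_div, ← Finset.sum_div,
      Finset.sum_sub_distrib, hpsum, Finset.sum_const, Finset.card_univ, Fintype.card_fin,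
      nsmul_eq_mul]
    have : (N : ℝ) * θ = m := by
      rw [hθ]; field_simp
    rw [this]
    ring
  have hpi : 0 < 2 * Real.pi := by positivity
  have h1 : G * (Real.exp ((m : ℝ) / 2 * Real.log (θ / (2 * Real.pi))) * √(2 * Real.pi) ^ m) ≤ 1 := by
    refine le_trans ?_ hint
    rw [mul_assoc]
    gcongr
  have h2 : (Real.exp ((m : ℝ) / 2 * Real.log (θ / (2 * Real.pi))) * √(2 * Real.pi) ^ m) ^ 2 =
      θ ^ m := by
    rw [mul_pow, ← Real.exp_nat_mul, ← pow_mul, mul_comm m 2, pow_mul, Real.sq_sqrt hpi.le]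
    have : ((2 : ℕ) : ℝ) * ((m : ℝ) / 2 * Real.log (θ / (2 * Real.pi))) =
        (m : ℝ) * Real.log (θ / (2 * Real.pi)) := by push_cast; ring
    rw [this, Real.exp_nat_mul, Real.exp_log (by positivity), ← mul_pow]
    congr 1
    field_simp
  have h3 : (G * (Real.exp ((m : ℝ) / 2 * Real.log (θ / (2 * Real.pi))) *
      √(2 * Real.pi) ^ m)) ^ 2 ≤ 1 := by
    have : 0 ≤ G * (Real.exp ((m : ℝ) / 2 * Real.log (θ / (2 * Real.pi))) *
      √(2 * Real.pi) ^ m) := by positivity
    exact pow_le_one₀ this h1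
  rw [mul_pow, h2] at h3
  have h4 : ((N : ℝ) / m) ^ m * θ ^ m = 1 := by
    rw [← mul_pow, hθ]
    have : (N : ℝ) / m * (m / N) = 1 := by field_simp
    rw [this, one_pow]
  have h5 : 0 < θ ^ m := by positivity
  calc G ^ 2 = (G ^ 2 * θ ^ m) * ((N : ℝ) / m) ^ m := by
        rw [mul_assoc, mul_comm (θ ^ m), h4, mul_one]
    _ ≤ 1 * ((N : ℝ) / m) ^ m := by gcongr
    _ = _ := one_mul _

end Pool.Agent.J6H92.FQ
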