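import Pool.Agent.Y568.FL.Vol

/-!
# Orthogonal completion of a Parseval frame
-/

set_option autoImplicit false
set_option linter.unusedSectionVars false
set_option linter.unusedSimpArgs false
set_option linter.unusedVariables false

namespace Pool.Agent.J6H92.FQ

open Finset Matrix MeasureTheory Pool.Agent.Helper484 Pool.Agent.Y568.FL
open scoped ENNReal

variable {N d m : ℕ}

/-- `z` completes the frame `x` to an orthogonal matrix -/
structure Co (x : Fin N → Fin d → ℝ) (z : Fin N → Fin m → ℝ) : Prop where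
  row : ∀ i j, x i ⬝ᵥ x j + z i ⬝ᵥ z j = if i = j then 1 else 0
  par : ∀ q : Fin m → ℝ, ∑ j, (z j ⬝ᵥ q) ^ 2 = q ⬝ᵥ q
  meas : ∀ F : (Fin N → ℝ) → ℝ≥0∞, Measurable F →
    ∫⁻ c, F c = ∫⁻ y : Fin d → ℝ, ∫⁻ q : Fin m → ℝ, F (fun j => x j ⬝ᵥ y + z j ⬝ᵥ q)

lemma fr_polar {x : Fin N → Fin d → ℝ} (hx : Fr x) (u v : Fin d → ℝ) :
    ∑ j, (x j ⬝ᵥ u) * (x j ⬝ᵥ v) = u ⬝ᵥ v := by
  have h1 := hx (u + v)
  have h2 := hx u
  have h3 := hx v
  have h4 : ∑ j, (x j ⬝ᵥ (u + v)) ^ 2 = ∑ j, (x j ⬝ᵥ u) ^ 2 +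
      2 * ∑ j, (x j ⬝ᵥ u) * (x j ⬝ᵥ v) + ∑ j, (x j ⬝ᵥ v) ^ 2 := by
    rw [Finset.mul_sum, ← Finset.sum_add_distrib, ← Finset.sum_add_distrib]
    exact Finset.sum_congr rfl fun j _ => by rw [dotProduct_add]; ring
  have h5 : (u + v) ⬝ᵥ (u + v) = u ⬝ᵥ u + 2 * (u ⬝ᵥ v) + v ⬝ᵥ v := by
    rw [dotProduct_add, add_dotProduct, add_dotProduct, dotProduct_comm v u]; ring
  rw [h4, h5, h2, h3] at h1
  linarith

theorem exists_co {x : Fin N → Fin d → ℝ} (hx : Fr x) (hN : N = d + m) :
    ∃ z : Fin N → Fin m → ℝ, Co x z := by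
  classical
  let v : Fin d ⊕ Fin m → EuclideanSpace ℝ (Fin N) :=
    Sum.elim (fun a => WithLp.toLp 2 (fun j => x j a)) (fun _ => 0)
  have hin : ∀ a c : Fin d, inner ℝ (v (Sum.inl a)) (v (Sum.inl c)) = if a = c then (1:ℝ) else 0 := by
    intro a c
    have h1 := fr_polar hx (Pi.single a 1) (Pi.single c 1)
    simp only [dotProduct_single, mul_one] at h1
    have h2 : inner ℝ (v (Sum.inl a)) (v (Sum.inl c)) = ∑ j, x j a * x j c := by
      simp only [v, Sum.elim_inl, PiLp.inner_apply, RCLike.inner_apply, conj_trivial]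
      exact Finset.sum_congr rfl fun j _ => mul_comm _ _
    rw [h2, h1]
    simp [Pi.single_apply, eq_comm]
  have hv : Orthonormal ℝ ((Set.range (Sum.inl : Fin d → Fin d ⊕ Fin m)).domRestrict v) := by
    rw [orthonormal_iff_ite]
    rintro ⟨_, a, rfl⟩ ⟨_, c, rfl⟩
    show inner ℝ (v (Sum.inl a)) (v (Sum.inl c)) = _
    rw [hin]
    by_cases h : a = c
    · subst h; rw [if_pos rfl, if_pos rfl]
    · rw [if_neg h, if_neg]
      intro h'
      exact h (Sum.inl.inj (Subtype.mk.inj h'))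
  have hcard : Module.finrank ℝ (EuclideanSpace ℝ (Fin N)) = Fintype.card (Fin d ⊕ Fin m) := by
    simp [hN]
  obtain ⟨b, hb⟩ := hv.exists_orthonormalBasis_extension_of_card_eq hcard
  have hbx : ∀ a j, b (Sum.inl a) j = x j a := by
    intro a j
    rw [hb (Sum.inl a) ⟨a, rfl⟩]
    rfl
  -- the isometry in coordinates
  have hrep : ∀ (w : EuclideanSpace ℝ (Fin d ⊕ Fin m)) (j : Fin N), (b.repr.symm w) j =
      x j ⬝ᵥ (fun a => w (Sum.inl a)) + (fun e => b (Sum.inr e) j) ⬝ᵥ (fun e => w (Sum.inr e)) := by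
    intro w j
    have h1 : b.repr.symm w = ∑ k, w k • b k := by
      have h2 := b.sum_repr (b.repr.symm w)
      simp only [LinearIsometryEquiv.apply_symm_apply] at h2
      exact h2.symm
    rw [h1, Fintype.sum_sum_type]
    simp only [PiLp.add_apply, WithLp.ofLp_sum, Finset.sum_apply, PiLp.smul_apply, smul_eq_mul,
      dotProduct, hbx]
    congr 1 <;> exact Finset.sum_congr rfl fun _ _ => mul_comm _ _
  refine ⟨fun j e => b (Sum.inr e) j, ?_, ?_, ?_⟩
  · intro i j
    have h1 := b.sum_inner_mul_inner (EuclideanSpace.single i (1:ℝ)) (EuclideanSpace.single j (1:ℝ))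
    rw [Fintype.sum_sum_type] at h1
    simp only [EuclideanSpace.inner_single_left, EuclideanSpace.inner_single_right, hbx,
      map_one, one_mul, conj_trivial] at h1
    simp only [dotProduct]
    rw [h1]
    simp [eq_comm]
  · intro q
    set w : EuclideanSpace ℝ (Fin d ⊕ Fin m) := WithLp.toLp 2 (Sum.elim (fun _ => 0) q) with hw
    have h1 : ‖b.repr.symm w‖ ^ 2 = ‖w‖ ^ 2 := by rw [LinearIsometryEquiv.norm_map]
    rw [EuclideanSpace.real_norm_sq_eq, EuclideanSpace.real_norm_sq_eq, Fintype.sum_sum_type] at h1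
    simp only [hrep] at h1
    have e1 : (fun a => w.ofLp (Sum.inl a)) = (0 : Fin d → ℝ) := by
      funext a; simp [hw]
    have e2 : (fun e => w.ofLp (Sum.inr e)) = q := by
      funext a; simp [hw]
    rw [e1, e2] at h1
    have e3 : ∀ e, w.ofLp (Sum.inr e) = q e := fun e => congrFun e2 e
    have e4 : ∀ e, w.ofLp (Sum.inl e) = 0 := fun e => congrFun e1 e
    simp only [dotProduct_zero, zero_add, e3, e4] at h1
    rw [h1]
    simp only [dotProduct, ne_eq, OfNat.ofNat_ne_zero, not_false_eq_true, zero_pow,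
      Finset.sum_const_zero, zero_add]
    exact Finset.sum_congr rfl fun i _ => by ring
  · intro F hF
    have m1 : MeasurePreserving (fun w : EuclideanSpace ℝ (Fin d ⊕ Fin m) =>
        WithLp.ofLp (b.repr.symm w)) volume volume :=
      (PiLp.volume_preserving_ofLp (Fin N)).comp b.measurePreserving_repr_symm
    have m2 : MeasurePreserving (fun w : (Fin d ⊕ Fin m) → ℝ =>
        WithLp.ofLp (b.repr.symm (WithLp.toLp 2 w))) volume volume :=
      m1.comp (PiLp.volume_preserving_toLp (Fin d ⊕ Fin m))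
    have m3 := m2.comp (volume_measurePreserving_sumPiEquivProdPi_symm (fun _ : Fin d ⊕ Fin m => ℝ))
    have h1 := m3.lintegral_comp hF
    rw [← h1, Measure.volume_eq_prod, lintegral_prod]
    · refine lintegral_congr fun y => lintegral_congr fun q => ?_
      congr 1
      funext j
      simp only [Function.comp_apply]
      rw [hrep]
      rfl
    · exact (hF.comp m3.measurable).aemeasurable

end Pool.Agent.J6H92.FQ
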