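import Pool.Agent.J6H92.FQ.Geom

/-!
# Numerical part: balanced partitions
-/

set_option autoImplicit false
set_option linter.unusedSectionVars false
set_option linter.unusedSimpArgs false
set_option linter.unusedVariables false

namespace Pool.Agent.J6H92.FQ

open Finset

lemma bs_sum {N m : ℕ} (p : Fin N → Fin m) : ∑ a, bs p a = N := by
  have := Finset.card_eq_sum_card_fiberwise (f := p) (s := univ) (t := univ)
    (fun i _ => Finset.mem_coe.mpr (Finset.mem_univ _))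
  unfold bs
  rw [← this, Finset.card_univ, Fintype.card_fin]

lemma log_step {l : ℕ} (hl : 1 ≤ l) {s : ℕ} (hs : s = l ∨ s = l + 1) :
    Real.log l + ((s : ℝ) - l) * (1 / l - 1 / (2 * (l : ℝ) ^ 2)) ≤ Real.log s := by
  have hl0 : (0 : ℝ) < l := by exact_mod_cast hl
  rcases hs with rfl | rfl
  · simp
  · have h1 := Real.le_log_one_add_of_nonneg (x := 1 / (l : ℝ)) (by positivity)
    have h2 : Real.log ((l + 1 : ℕ) : ℝ) = Real.log l + Real.log (1 + 1 / (l : ℝ)) := by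
      rw [← Real.log_mul hl0.ne' (by positivity)]
      congr 1
      push_cast
      field_simp
    rw [h2]
    have h3 : (1 : ℝ) / l - 1 / (2 * (l : ℝ) ^ 2) ≤ 2 * (1 / (l : ℝ)) / (1 / (l : ℝ) + 2) := by
      rw [le_div_iff₀ (by positivity)]
      have : (1 / (l : ℝ) - 1 / (2 * (l : ℝ) ^ 2)) * (1 / (l : ℝ) + 2) =
          2 * (1 / (l : ℝ)) - 1 / (2 * (l : ℝ) ^ 3) := by
        field_simp
        ring
      rw [this]
      have : 0 < 1 / (2 * (l : ℝ) ^ 3) := by positivity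
      linarith
    push_cast
    have h4 : ((l : ℝ) + 1 - l) = 1 := by ring
    rw [h4, one_mul]
    linarith

/-- the ratio between the universal bound and the balanced configuration -/
lemma ratio {n k : ℕ} (hkn : k ≤ n) (p : Fin (n + 1) → Fin (k + 1))
    (hp : ∀ a, bs p a = (n + 1) / (k + 1) ∨ bs p a = (n + 1) / (k + 1) + 1) :
    √((((n : ℝ) + 1) / ((k : ℝ) + 1)) ^ (k + 1)) ≤
      Real.exp (((n + 1) % (k + 1) : ℕ) / (4 * (((n + 1) / (k + 1) : ℕ) : ℝ) ^ 2)) *
        √(∏ a, (bs p a : ℝ)) := by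
  set l := (n + 1) / (k + 1) with hl
  set r := (n + 1) % (k + 1) with hr
  have hl1 : 1 ≤ l := Nat.div_pos (by omega) (by omega)
  have hl0 : (0 : ℝ) < l := by exact_mod_cast hl1
  have hdm : (k + 1) * l + r = n + 1 := Nat.div_add_mod (n + 1) (k + 1)
  have hpos : ∀ a, 0 < bs p a := fun a => by rcases hp a with h | h <;> omega
  have hposR : ∀ a, (0 : ℝ) < (bs p a : ℝ) := fun a => by exact_mod_cast hpos a
  have hprod : 0 < ∏ a, (bs p a : ℝ) := Finset.prod_pos fun a _ => hposR a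
  have hk0 : (0 : ℝ) < (k : ℝ) + 1 := by positivity
  have hn0 : (0 : ℝ) < (n : ℝ) + 1 := by positivity
  have hR : ((k : ℝ) + 1) * l + r = (n : ℝ) + 1 := by exact_mod_cast hdm
  -- logarithms
  have h1 : ((k : ℝ) + 1) * Real.log (((n : ℝ) + 1) / ((k : ℝ) + 1)) ≤
      ((k : ℝ) + 1) * Real.log l + r / l := by
    have h2 : Real.log ((((n : ℝ) + 1) / ((k : ℝ) + 1)) / l) ≤
        (((n : ℝ) + 1) / ((k : ℝ) + 1)) / l - 1 := Real.log_le_sub_one_of_pos (by positivity)
    rw [Real.log_div (by positivity) hl0.ne'] at h2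
    have h3 := mul_le_mul_of_nonneg_left h2 hk0.le
    have h4 : ((k : ℝ) + 1) * ((((n : ℝ) + 1) / ((k : ℝ) + 1)) / l - 1) = r / l := by
      rw [← hR]
      field_simp
      ring
    rw [h4] at h3
    linarith
  have h5 : ((k : ℝ) + 1) * Real.log l + r * (1 / l - 1 / (2 * (l : ℝ) ^ 2)) ≤
      Real.log (∏ a, (bs p a : ℝ)) := by
    rw [Real.log_prod (fun a _ => (hposR a).ne')]
    have h6 : ∑ a : Fin (k + 1), (Real.log l + ((bs p a : ℝ) - l) * (1 / l - 1 / (2 * (l : ℝ) ^ 2))) ≤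
        ∑ a, Real.log (bs p a : ℝ) := Finset.sum_le_sum fun a _ => log_step hl1 (hp a)
    refine le_trans (le_of_eq ?_) h6
    rw [Finset.sum_add_distrib, Finset.sum_const, Finset.card_univ, Fintype.card_fin,
      ← Finset.sum_mul, Finset.sum_sub_distrib, Finset.sum_const, Finset.card_univ,
      Fintype.card_fin, nsmul_eq_mul, nsmul_eq_mul]
    have h7 : ∑ a, (bs p a : ℝ) = (n : ℝ) + 1 := by
      have := bs_sum p
      exact_mod_cast this
    rw [h7, ← hR]
    push_cast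
    ring
  have h8 : (((n : ℝ) + 1) / ((k : ℝ) + 1)) ^ (k + 1) ≤
      Real.exp (r / (2 * (l : ℝ) ^ 2)) * ∏ a, (bs p a : ℝ) := by
    have h9 : (((n : ℝ) + 1) / ((k : ℝ) + 1)) ^ (k + 1) =
        Real.exp (((k : ℝ) + 1) * Real.log (((n : ℝ) + 1) / ((k : ℝ) + 1))) := by
      rw [← Real.exp_log (show (0:ℝ) < (((n : ℝ) + 1) / ((k : ℝ) + 1)) ^ (k + 1) by positivity),
        Real.log_pow]
      push_cast
      ring_nf
    have h10 : ∏ a, (bs p a : ℝ) = Real.exp (Real.log (∏ a, (bs p a : ℝ))) :=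
      (Real.exp_log hprod).symm
    rw [h9, h10, ← Real.exp_add]
    apply Real.exp_le_exp.mpr
    have h11 : (r : ℝ) * (1 / l - 1 / (2 * (l : ℝ) ^ 2)) = r / l - r / (2 * (l : ℝ) ^ 2) := by
      field_simp
    linarith
  have h12 : Real.exp ((r : ℝ) / (2 * (l : ℝ) ^ 2)) = Real.exp ((r : ℝ) / (4 * (l : ℝ) ^ 2)) ^ 2 := by
    rw [← Real.exp_nat_mul]
    congr 1
    push_cast
    field_simp
    norm_num
  refine Real.sqrt_le_iff.mpr ⟨by positivity, ?_⟩
  rw [mul_pow, ← h12, Real.sq_sqrt hprod.le]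
  exact h8

lemma all_eq {n k : ℕ} (hdvd : (k + 1) ∣ (n + 1)) (p : Fin (n + 1) → Fin (k + 1))
    (hp : ∀ a, bs p a = (n + 1) / (k + 1) ∨ bs p a = (n + 1) / (k + 1) + 1) (a : Fin (k + 1)) :
    (bs p a : ℝ) = ((n : ℝ) + 1) / ((k : ℝ) + 1) := by
  have h1 : ∀ a ∈ (univ : Finset (Fin (k + 1))), (n + 1) / (k + 1) ≤ bs p a := by
    intro a _
    rcases hp a with h | h <;> omega
  have h2 : ∑ a : Fin (k + 1), (n + 1) / (k + 1) = ∑ a, bs p a := by
    rw [bs_sum, Finset.sum_const, Finset.card_univ, Fintype.card_fin, smul_eq_mul]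
    exact Nat.mul_div_cancel' hdvd
  have h3 := ((Finset.sum_eq_sum_iff_of_le h1).mp h2 a (mem_univ a)).symm
  rw [h3]
  have h4 : (k + 1) * ((n + 1) / (k + 1)) = n + 1 := Nat.mul_div_cancel' hdvd
  have h5 : ((k : ℝ) + 1) * (((n + 1) / (k + 1) : ℕ) : ℝ) = (n : ℝ) + 1 := by exact_mod_cast h4
  field_simp
  linarith

end Pool.Agent.J6H92.FQ
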