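import Pool.Agent.J6H92.FQ.Lower
import Pool.Agent.Y568.FL.Main

/-!
# Projections of the regular simplex
-/

set_option autoImplicit false
set_option linter.unusedSectionVars false
set_option linter.unusedSimpArgs false
set_option linter.unusedVariables false

namespace Pool.Agent.J6H92.FQ

open Finset Matrix MeasureTheory Pool.Agent.Helper484 Pool.Agent.Y568.FL
open Pool.Agent.Helper7.Simplex
open scoped ENNReal

variable {N d m : ℕ}

theorem hull_bound {x : Fin N → Fin d → ℝ} (hN : N = d + m) (hm : 0 < m) (hx : Fr x)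
    (hsum : ∑ j, x j = 0) :
    volume (convexHull ℝ (Set.range x)) ≤ ENNReal.ofReal (√(((N : ℝ) / m) ^ m) / d.factorial) := by
  classical
  obtain ⟨b, hb, hgen, hone⟩ := exists_generic_rhs x
  have hpol : ∀ y : Fin d → ℝ, ∑ j, (x j ⬝ᵥ y) • x j = y := by
    intro y
    have hz : ∀ v : Fin d → ℝ, (∑ j, (x j ⬝ᵥ y) • x j) ⬝ᵥ v = y ⬝ᵥ v := by
      intro v
      rw [sum_dotProduct, ← fr_polar hx y v]
      exact Finset.sum_congr rfl fun j _ => by rw [smul_dotProduct, smul_eq_mul]
    funext i
    have := hz (Pi.single i 1)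
    simpa using this
  have hrep : ∀ y : Fin d → ℝ, ∃ l, Rep x y l := by
    intro y
    set t : ℝ := ∑ j, |x j ⬝ᵥ y| with ht
    refine ⟨fun j => x j ⬝ᵥ y + t, fun j => ?_, ?_⟩
    · have h1 : |x j ⬝ᵥ y| ≤ t :=
        Finset.single_le_sum (f := fun j => |x j ⬝ᵥ y|) (fun j _ => abs_nonneg _) (mem_univ j)
      have h2 := neg_abs_le (x j ⬝ᵥ y)
      linarith
    · simp only [add_smul, Finset.sum_add_distrib]
      rw [hpol y, ← Finset.smul_sum, hsum, smul_zero, add_zero]
  have hbpos : ∀ j, 0 < b j := fun j => by linarith [(hb j).1]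
  refine (vol_le hbpos hone hrep).trans (ENNReal.ofReal_le_ofReal ?_)
  refine div_le_div_of_nonneg_right ?_ (by positivity)
  have h1 := SD_bound hx hgen hN hm
  exact Real.le_sqrt_of_sq_le h1

variable {V : Type*} [NormedAddCommGroup V] [InnerProductSpace ℝ V] [FiniteDimensional ℝ V]
  [MeasurableSpace V] [BorelSpace V]

theorem proj_bound {n k : ℕ} (hV : Module.finrank ℝ V = n) (hkn : k ≤ n) (v : Fin (n + 1) → V)
    (hv : ∀ i j, i ≠ j → dist (v i) (v j) = √2)
    (E : Submodule ℝ V) (hE : Module.finrank ℝ E = n - k) :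
    J7762.projVol (n - k) E (convexHull ℝ (Set.range v)) ≤
      ENNReal.ofReal (√((((n : ℝ) + 1) / ((k : ℝ) + 1)) ^ (k + 1)) / (n - k).factorial) := by
  obtain ⟨L, h1, h2, h3, -, -⟩ := coord v (J7761.R_frame hV v hv) E hE
  rw [h1]
  have h4 := hull_bound (m := k + 1) (by omega : n + 1 = (n - k) + (k + 1)) (Nat.succ_pos k) h3 h2
  push_cast at h4
  exact h4

theorem proj_block {n k : ℕ} (hV : Module.finrank ℝ V = n) (hkn : k ≤ n)
    (v : Fin (n + 1) → V) (hv : ∀ i j, i ≠ j → dist (v i) (v j) = √2)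
    (p : Fin (n + 1) → Fin (k + 1)) (hsurj : Function.Surjective p) :
    Module.finrank ℝ (Submodule.span ℝ {x | ∃ i j, p i = p j ∧ x = v i - v j}) = n - k ∧
    ENNReal.ofReal (√(∏ a, (bs p a : ℝ)) / (n - k).factorial) ≤
    J7762.projVol (n - k) (Submodule.span ℝ {x | ∃ i j, p i = p j ∧ x = v i - v j})
      (convexHull ℝ (Set.range v)) := by
  classical
  have hf := J7761.R_frame hV v hv
  have hF := J7764.R_finrank hV v hv hf p hsurj
  set E : Submodule ℝ V := Submodule.span ℝ {x | ∃ i j, p i = p j ∧ x = v i - v j} with hEdef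
  have hE : Module.finrank ℝ E = n - k := by
    have := Submodule.finrank_add_finrank_orthogonal E
    omega
  refine ⟨hE, ?_⟩
  obtain ⟨L, h1, h2, h3, h4, h5⟩ := coord v hf E hE
  obtain ⟨q, g1, g2⟩ := gram v hv
  rw [h1]
  set c : V := ((n : ℝ) + 1)⁻¹ • ∑ j, v j with hc
  refine block_ge (p := p) ?_ (by omega : n + 1 = (n - k) + (k + 1)) (Nat.succ_pos n) h2
  have hg : ∀ i j, inner ℝ (v i - c) (v j - c) = (q - 1) + if i = j then 1 else 0 := by
    intro i j
    by_cases h : i = j
    · subst h; rw [g1, if_pos rfl]; ring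
    · rw [g2 i j h, if_neg h]; ring
  -- the block means
  set β : Fin (k + 1) → V := fun a => ((bs p a : ℕ) : ℝ)⁻¹ • ∑ j, (if a = p j then (v j - c) else 0)
    with hβ
  have hbs : ∀ a, ((bs p a : ℕ) : ℝ) ≠ 0 := by
    intro a
    obtain ⟨i, hi⟩ := hsurj a
    have : 0 < bs p a := Finset.card_pos.mpr ⟨i, by simp [hi]⟩
    positivity
  have hcard : ∀ a, ∑ j, (if a = p j then (1:ℝ) else 0) = bs p a := by
    intro a
    rw [← Finset.sum_filter, Finset.sum_const, nsmul_eq_mul, mul_one]
    unfold bs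
    congr 2
    ext j
    simp [eq_comm]
  have hiβ : ∀ i a, inner ℝ (v i - c) (β a) =
      (q - 1) + if p i = a then ((bs p a : ℕ) : ℝ)⁻¹ else 0 := by
    intro i a
    simp only [hβ]
    rw [inner_smul_right, inner_sum]
    have e1 : ∀ j, inner ℝ (v i - c) (if a = p j then (v j - c) else 0) =
        (q - 1) * (if a = p j then 1 else 0) + (if i = j then (if a = p j then 1 else 0) else 0) := by
      intro j
      by_cases h : a = p j
      · rw [if_pos h, if_pos h, hg]; split_ifs <;> ring
      · rw [if_neg h, if_neg h, inner_zero_right]; simp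
    simp only [e1, Finset.sum_add_distrib, ← Finset.mul_sum, hcard, Finset.sum_ite_eq, mem_univ,
      if_true]
    by_cases h : a = p i
    · rw [if_pos h, if_pos h.symm]
      field_simp [hbs a]
    · rw [if_neg h, if_neg (fun h' => h h'.symm)]
      field_simp [hbs a]
      ring
  have hβorth : ∀ a, β a ∈ Eᗮ := by
    intro a
    rw [Submodule.mem_orthogonal]
    intro w hw
    induction hw using Submodule.span_induction with
    | mem w hw =>
      obtain ⟨r, s, hrs, rfl⟩ := hw
      have e1 : v r - v s = (v r - c) - (v s - c) := by abel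
      rw [e1, inner_sub_left, hiβ, hiβ, hrs, sub_self]
    | zero => exact inner_zero_left _
    | add a b _ _ iha ihb => rw [inner_add_left, iha, ihb, add_zero]
    | smul a b _ ihb => rw [inner_smul_left, ihb, mul_zero]
  have hmemE : ∀ i, (v i - c) - β (p i) ∈ E := by
    intro i
    have e1 : (v i - c) - β (p i) = ((bs p (p i) : ℕ) : ℝ)⁻¹ •
        ∑ j, (if p i = p j then (v i - v j) else 0) := by
      have e2 : ∀ j, (if p i = p j then (v i - v j) else 0) =
          (if p i = p j then (1:ℝ) else 0) • (v i - c) - (if p i = p j then (v j - c) else 0) := by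
        intro j
        split_ifs
        · rw [one_smul]; abel
        · simp
      simp only [e2, Finset.sum_sub_distrib]
      rw [← Finset.sum_smul, hcard, smul_sub, smul_smul, inv_mul_cancel₀ (hbs _), one_smul]
    rw [e1]
    refine Submodule.smul_mem _ _ (Submodule.sum_mem _ fun j _ => ?_)
    by_cases h : p i = p j
    · rw [if_pos h]
      exact Submodule.subset_span ⟨i, j, h, rfl⟩
    · rw [if_neg h]; exact Submodule.zero_mem _
  intro i j
  have hL : ∀ i, L (v i - c) = L ((v i - c) - β (p i)) := by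
    intro i
    rw [LinearMap.map_sub L (v i - c) (β (p i)), h4 _ (hβorth _), sub_zero]
  show L (v i - c) ⬝ᵥ L (v j - c) = _
  rw [hL i, h5 _ _ (hmemE i), inner_sub_left, hg, real_inner_comm, hiβ]
  have e : (if p j = p i then ((bs p (p i) : ℕ) : ℝ)⁻¹ else 0) =
      if p i = p j then ((bs p (p i) : ℕ) : ℝ)⁻¹ else 0 := by
    by_cases h : p i = p j
    · rw [if_pos h, if_pos h.symm]
    · rw [if_neg h, if_neg (fun h' => h h'.symm)]
  rw [e]
  ring

end Pool.Agent.J6H92.FQ
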