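import Pool.Agent.J6H92.FQ.Bound

/-!
# Lower bound for the volume of the block configuration
-/

set_option autoImplicit false
set_option linter.unusedSectionVars false
set_option linter.unusedSimpArgs false
set_option linter.unusedVariables false

namespace Pool.Agent.J6H92.FQ

open Finset Matrix MeasureTheory Pool.Agent.Helper484 Pool.Agent.Y568.FL
open scoped ENNReal

variable {N d m : ℕ}

/-- size of a block -/
def bs (p : Fin N → Fin m) (a : Fin m) : ℕ := (univ.filter fun i => p i = a).card

/-- Gram matrix of the block configuration -/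
def BGram (x : Fin N → Fin d → ℝ) (p : Fin N → Fin m) : Prop :=
  ∀ i j, x i ⬝ᵥ x j = (if i = j then 1 else 0) - (if p i = p j then ((bs p (p i) : ℕ) : ℝ)⁻¹ else 0)

/-- transversals -/
def Tr (p : Fin N → Fin m) : Finset (Fin m → Fin N) :=
  Fintype.piFinset fun a => univ.filter fun i => p i = a

lemma Tr_card (p : Fin N → Fin m) : (Tr p).card = ∏ a, bs p a := by
  rw [Tr, Fintype.card_piFinset]
  rfl

lemma mem_Tr {p : Fin N → Fin m} {t : Fin m → Fin N} : t ∈ Tr p ↔ ∀ a, p (t a) = a := by
  simp [Tr, Fintype.mem_piFinset]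

lemma Tr_inj {p : Fin N → Fin m} {t : Fin m → Fin N} (ht : t ∈ Tr p) : Function.Injective t := by
  intro a b h
  have h1 := mem_Tr.mp ht a
  have h2 := mem_Tr.mp ht b
  rw [h, h2] at h1
  exact h1.symm

lemma compl_card {p : Fin N → Fin m} (hN : N = d + m) {t : Fin m → Fin N} (ht : t ∈ Tr p) :
    ((univ.image t)ᶜ).card = d := by
  rw [Finset.card_compl, Finset.card_image_of_injective _ (Tr_inj ht), Fintype.card_fin,
    Finset.card_univ, Fintype.card_fin, hN]
  simp

lemma exists_It {p : Fin N → Fin m} (hN : N = d + m) {t : Fin m → Fin N} (ht : t ∈ Tr p) :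
    ∃ I : Fin d → Fin N, Function.Injective I ∧ univ.image I = (univ.image t)ᶜ := by
  have h := compl_card hN ht
  refine ⟨⇑(((univ.image t)ᶜ).orderEmbOfFin h), (((univ.image t)ᶜ).orderEmbOfFin h).injective, ?_⟩
  rw [← Finset.coe_inj, Finset.coe_image, Finset.coe_univ, Set.image_univ,
    Finset.range_orderEmbOfFin]

lemma det_sq {x : Fin N → Fin d → ℝ} {p : Fin N → Fin m} (hx : BGram x p)
    {t : Fin m → Fin N} (ht : t ∈ Tr p) {I : Fin d → Fin N} (hI : Function.Injective I)
    (hr : univ.image I = (univ.image t)ᶜ) : D x I ^ 2 = ∏ a, ((bs p a : ℕ) : ℝ)⁻¹ := by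
  classical
  have hpos : ∀ a, 0 < bs p a := fun a => Finset.card_pos.mpr ⟨t a, by simp [mem_Tr.mp ht a]⟩
  set U : Matrix (Fin d) (Fin m) ℝ := Matrix.of fun a c =>
    if p (I a) = c then (√(bs p c : ℝ))⁻¹ else 0 with hU
  have h1 : (A x I)ᵀ * A x I = 1 - U * Uᵀ := by
    ext a c
    rw [Matrix.mul_apply, Matrix.sub_apply, Matrix.mul_apply, Matrix.one_apply]
    have h2 := hx (I a) (I c)
    simp only [dotProduct] at h2
    simp only [A, Matrix.transpose_apply, Matrix.of_apply, hU]
    rw [h2]
    congr 1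
    · simp [hI.eq_iff]
    · by_cases h : p (I a) = p (I c)
      · rw [if_pos h]
        simp only [h, Finset.sum_ite_eq, ite_mul, zero_mul, mem_univ, if_true, mul_ite, mul_zero]
        rw [← mul_inv, Real.mul_self_sqrt (Nat.cast_nonneg _)]
      · rw [if_neg h]
        symm
        apply Finset.sum_eq_zero
        intro e _
        by_cases h3 : p (I a) = e
        · have h4 : ¬ p (I c) = e := fun h4 => h (h3.trans h4.symm)
          simp [h4]
        · simp [h3]
  have h2 : Uᵀ * U = Matrix.diagonal fun c => ((bs p c : ℝ) - 1) / bs p c := by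
    ext c e
    rw [Matrix.mul_apply, Matrix.diagonal_apply]
    simp only [Matrix.transpose_apply, hU, Matrix.of_apply]
    by_cases h : c = e
    · subst h
      rw [if_pos rfl]
      have h3 : ∀ a, (if p (I a) = c then (√(bs p c : ℝ))⁻¹ else 0) *
          (if p (I a) = c then (√(bs p c : ℝ))⁻¹ else 0) =
          if p (I a) = c then ((bs p c : ℝ))⁻¹ else 0 := by
        intro a
        split_ifs
        · rw [← mul_inv, Real.mul_self_sqrt (Nat.cast_nonneg _)]
        · simp
      simp only [h3]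
      rw [← Finset.sum_filter, Finset.sum_const, nsmul_eq_mul, div_eq_mul_inv]
      congr 1
      have h4 : ((univ.filter fun a => p (I a) = c).card : ℝ) + 1 = bs p c := by
        have h5 : (univ.filter fun i => p i = c) =
            insert (t c) ((univ.filter fun a => p (I a) = c).image I) := by
          ext i
          simp only [mem_filter, mem_univ, true_and, mem_insert, mem_image]
          constructor
          · intro hi
            by_cases hit : i = t c
            · exact Or.inl hit
            · right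
              have h6 : i ∈ univ.image I := by
                rw [hr, Finset.mem_compl]
                intro h7
                obtain ⟨e, -, he⟩ := Finset.mem_image.mp h7
                rw [← he, mem_Tr.mp ht e] at hi
                rw [hi] at he
                exact hit he.symm
              obtain ⟨a, -, ha⟩ := Finset.mem_image.mp h6
              exact ⟨a, by rw [ha]; exact hi, ha⟩
          · rintro (rfl | ⟨a, ha, rfl⟩)
            · exact mem_Tr.mp ht c
            · exact ha
        have h6 : t c ∉ (univ.filter fun a => p (I a) = c).image I := by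
          intro h7
          obtain ⟨a, -, ha⟩ := Finset.mem_image.mp h7
          have h8 : t c ∈ univ.image I := Finset.mem_image.mpr ⟨a, mem_univ _, ha⟩
          rw [hr, Finset.mem_compl] at h8
          exact h8 (Finset.mem_image.mpr ⟨c, mem_univ _, rfl⟩)
        unfold bs
        rw [h5, Finset.card_insert_of_notMem h6, Finset.card_image_of_injective _ hI]
        push_cast
        ring
      linarith
    · rw [if_neg h]
      apply Finset.sum_eq_zero
      intro a _
      by_cases h3 : p (I a) = c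
      · have h4 : ¬ p (I a) = e := fun h4 => h (h3.symm.trans h4)
        simp [h4]
      · simp [h3]
  have h3 := congrArg Matrix.det h1
  rw [Matrix.det_mul, Matrix.det_transpose, Matrix.det_one_sub_mul_comm, h2] at h3
  have h4 : (1 : Matrix (Fin m) (Fin m) ℝ) -
      Matrix.diagonal (fun c => ((bs p c : ℝ) - 1) / bs p c) =
      Matrix.diagonal fun c => ((bs p c : ℕ) : ℝ)⁻¹ := by
    ext c e
    rw [Matrix.sub_apply, Matrix.one_apply, Matrix.diagonal_apply, Matrix.diagonal_apply]
    split_ifs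
    · have := hpos c
      have h5 : ((bs p c : ℕ) : ℝ) ≠ 0 := by positivity
      field_simp
      ring
    · simp
  rw [h4, Matrix.det_diagonal] at h3
  rw [sq]
  exact h3

lemma block_avg {x : Fin N → Fin d → ℝ} {p : Fin N → Fin m} (hx : BGram x p) (δ : Fin N → ℝ)
    (h : ∑ j, δ j • x j = 0) (i : Fin N) :
    δ i = ((bs p (p i) : ℕ) : ℝ)⁻¹ * ∑ j, (if p i = p j then δ j else 0) := by
  have h1 : x i ⬝ᵥ (∑ j, δ j • x j) = 0 := by rw [h, dotProduct_zero]
  rw [dotProduct_sum] at h1
  simp only [dotProduct_smul, smul_eq_mul, hx i] at h1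
  have h2 : ∀ j, δ j * ((if i = j then 1 else 0) - (if p i = p j then ((bs p (p i) : ℕ) : ℝ)⁻¹ else 0)) =
      (if i = j then δ j else 0) - ((bs p (p i) : ℕ) : ℝ)⁻¹ * (if p i = p j then δ j else 0) := by
    intro j
    split_ifs <;> ring
  simp only [h2, Finset.sum_sub_distrib, Finset.sum_ite_eq, mem_univ, if_true, ← Finset.mul_sum] at h1
  linarith

lemma block_const {x : Fin N → Fin d → ℝ} {p : Fin N → Fin m} (hx : BGram x p) (δ : Fin N → ℝ)
    (h : ∑ j, δ j • x j = 0) {i k : Fin N} (hik : p i = p k) : δ i = δ k := by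
  rw [block_avg hx δ h i, block_avg hx δ h k, hik]

/-- simplex over a basis -/
def Sm (x : Fin N → Fin d → ℝ) (I : Fin d → Fin N) : Set (Fin d → ℝ) :=
  (Matrix.toLin' (A x I)) '' (Pool.Agent.TH984.GBS.Sx d 1)

lemma Sm_meas {x : Fin N → Fin d → ℝ} {I : Fin d → Fin N} (h : D x I ≠ 0) :
    MeasurableSet (Sm x I) := by
  have : Sm x I = (Lam x I) ⁻¹' (Pool.Agent.TH984.GBS.Sx d 1) := by
    ext y
    constructor
    · rintro ⟨l, hl, rfl⟩
      show Lam x I ((Matrix.toLin' (A x I)) l) ∈ Pool.Agent.TH984.GBS.Sx d 1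
      rw [Matrix.toLin'_apply, A_mulVec, Lam_sum h]
      exact hl
    · intro hy
      refine ⟨Lam x I y, hy, ?_⟩
      rw [Matrix.toLin'_apply, A_mulVec, sum_Lam h]
  rw [this]
  exact Lam_meas x I (Pool.Agent.TH984.GBS.meas_Sx d 1)

lemma Sm_vol {x : Fin N → Fin d → ℝ} {I : Fin d → Fin N} :
    volume (Sm x I) = ENNReal.ofReal (|D x I| / d.factorial) := by
  unfold Sm
  rw [Measure.addHaar_image_linearMap, LinearMap.det_toLin',
    Pool.Agent.TH984.GBS.vol_Sx d 1 zero_le_one, ← ENNReal.ofReal_mul (abs_nonneg _)]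
  congr 1
  rw [one_pow]
  show |D x I| * (1 / (d.factorial : ℝ)) = _
  ring

lemma Sm_sub {x : Fin N → Fin d → ℝ} (hN : 0 < N) (hsum : ∑ j, x j = 0) {I : Fin d → Fin N} :
    Sm x I ⊆ convexHull ℝ (Set.range x) := by
  rintro _ ⟨l, hl, rfl⟩
  rw [Matrix.toLin'_apply, A_mulVec]
  have hN' : (0:ℝ) < N := by exact_mod_cast hN
  have key := (convex_convexHull ℝ (Set.range x)).sum_mem (t := (univ : Finset (Fin d ⊕ Fin N)))
    (w := Sum.elim l (fun _ => (1 - ∑ a, l a) / N))
    (z := Sum.elim (fun a => x (I a)) x) ?_ ?_ ?_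
  · rw [Fintype.sum_sum_type] at key
    simp only [Sum.elim_inl, Sum.elim_inr] at key
    rw [← Finset.smul_sum, hsum, smul_zero, add_zero] at key
    exact key
  · rintro (a | a) _
    · exact (hl.1 a).le
    · simp only [Sum.elim_inr]
      have := hl.2
      exact div_nonneg (by linarith) hN'.le
  · rw [Fintype.sum_sum_type]
    simp only [Sum.elim_inl, Sum.elim_inr, Finset.sum_const, Finset.card_univ, Fintype.card_fin,
      nsmul_eq_mul]
    field_simp
    ring
  · rintro (a | a) _
    · exact subset_convexHull ℝ _ ⟨_, rfl⟩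
    · exact subset_convexHull ℝ _ ⟨_, rfl⟩

lemma Sm_disj {x : Fin N → Fin d → ℝ} {p : Fin N → Fin m} (hx : BGram x p)
    {t t' : Fin m → Fin N} (ht : t ∈ Tr p) (ht' : t' ∈ Tr p) {I I' : Fin d → Fin N}
    (hI : Function.Injective I) (hI' : Function.Injective I')
    (hr : univ.image I = (univ.image t)ᶜ) (hr' : univ.image I' = (univ.image t')ᶜ)
    {y : Fin d → ℝ} (hy : y ∈ Sm x I) (hy' : y ∈ Sm x I') : t = t' := by
  classical
  obtain ⟨l, hl, rfl⟩ := hy
  obtain ⟨l', hl', he⟩ := hy'
  rw [Matrix.toLin'_apply, Matrix.toLin'_apply, A_mulVec, A_mulVec, ← sp_sum, ← sp_sum] at he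
  set δ : Fin N → ℝ := fun j => sp I l j - sp I' l' j with hδ
  have h0 : ∑ j, δ j • x j = 0 := by
    simp only [hδ, sub_smul, Finset.sum_sub_distrib]
    rw [he, sub_self]
  have hpos : ∀ j, j ∈ univ.image I → 0 < sp I l j := by
    intro j hj
    obtain ⟨a, -, rfl⟩ := Finset.mem_image.mp hj
    rw [sp_at hI]
    exact hl.1 a
  have hnn : ∀ j, 0 ≤ sp I' l' j := sp_nonneg I' fun a => (hl'.1 a).le
  funext c
  by_contra hne
  have hc := mem_Tr.mp ht c
  have hc' := mem_Tr.mp ht' c
  have h1 : δ (t c) = δ (t' c) := block_const hx δ h0 (hc.trans hc'.symm)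
  have h2 : sp I l (t c) = 0 := by
    apply sp_not
    rw [hr, Finset.mem_compl, not_not]
    exact Finset.mem_image.mpr ⟨c, mem_univ _, rfl⟩
  have h3 : sp I' l' (t' c) = 0 := by
    apply sp_not
    rw [hr', Finset.mem_compl, not_not]
    exact Finset.mem_image.mpr ⟨c, mem_univ _, rfl⟩
  have h4 : 0 < sp I l (t' c) := by
    apply hpos
    rw [hr, Finset.mem_compl]
    intro h5
    obtain ⟨e, -, he'⟩ := Finset.mem_image.mp h5
    have h6 := mem_Tr.mp ht e
    rw [he', hc'] at h6
    rw [← h6] at he'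
    exact hne he'
  have h5 := hnn (t c)
  simp only [hδ, h2, h3] at h1
  linarith

theorem block_ge {x : Fin N → Fin d → ℝ} {p : Fin N → Fin m} (hx : BGram x p) (hN : N = d + m)
    (hN0 : 0 < N) (hsum : ∑ j, x j = 0) :
    ENNReal.ofReal (√(∏ a, (bs p a : ℝ)) / d.factorial) ≤ volume (convexHull ℝ (Set.range x)) := by
  classical
  choose I hinj hran using fun (t : Tr p) => exists_It (d := d) hN t.2
  have hsq : ∀ t : Tr p, D x (I t) ^ 2 = ∏ a, ((bs p a : ℕ) : ℝ)⁻¹ := fun t =>
    det_sq hx t.2 (hinj t) (hran t)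
  by_cases hemp : (Tr p).card = 0
  · rw [Tr_card] at hemp
    have : (∏ a, (bs p a : ℝ)) = 0 := by exact_mod_cast hemp
    rw [this]
    simp
  have hprod : 0 < ∏ a, (bs p a : ℝ) := by
    rw [Tr_card] at hemp
    have : 0 < ∏ a, bs p a := Nat.pos_of_ne_zero hemp
    exact_mod_cast this
  have habs : ∀ t : Tr p, |D x (I t)| = (√(∏ a, (bs p a : ℝ)))⁻¹ := by
    intro t
    rw [← Real.sqrt_sq_eq_abs, hsq, Finset.prod_inv_distrib, Real.sqrt_inv]
  have hD : ∀ t : Tr p, D x (I t) ≠ 0 := by
    intro t h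
    have := habs t
    rw [h, abs_zero] at this
    have h2 : 0 < (√(∏ a, (bs p a : ℝ)))⁻¹ := by positivity
    linarith
  have h1 : volume (⋃ t : Tr p, Sm x (I t)) = ∑ t : Tr p, volume (Sm x (I t)) := by
    rw [measure_iUnion]
    · rw [tsum_fintype]
    · intro t t' hne
      rw [Function.onFun, Set.disjoint_left]
      intro y hy hy'
      exact hne (Subtype.ext (Sm_disj hx t.2 t'.2 (hinj t) (hinj t') (hran t) (hran t') hy hy'))
    · exact fun t => Sm_meas (hD t)
  have h2 : volume (⋃ t : Tr p, Sm x (I t)) ≤ volume (convexHull ℝ (Set.range x)) :=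
    measure_mono (Set.iUnion_subset fun t => Sm_sub hN0 hsum)
  refine le_trans (le_of_eq ?_) h2
  rw [h1]
  simp only [Sm_vol, habs]
  rw [← ENNReal.ofReal_sum_of_nonneg (fun t _ => by positivity)]
  congr 1
  rw [Finset.sum_const, Finset.card_univ, Fintype.card_coe, Tr_card, nsmul_eq_mul]
  push_cast
  rw [← mul_div_assoc]
  congr 1
  have h3 : √(∏ a, (bs p a : ℝ)) * √(∏ a, (bs p a : ℝ)) = ∏ a, (bs p a : ℝ) :=
    Real.mul_self_sqrt hprod.le
  have h4 : √(∏ a, (bs p a : ℝ)) ≠ 0 := by positivity
  field_simp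
  rw [sq, h3]

end Pool.Agent.J6H92.FQ
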