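import Pool.Agent.J6H92.FQ.Tile

/-!
# Densities and tails

For `0 ≤ p ≤ 1` there is a density `f` with tail `S` such that
`f ^ p * S ^ (1 - p) ≥ (p / (2 π)) ^ (p / 2) * exp (-t² / 2)`.
-/

set_option autoImplicit false
set_option linter.unusedSectionVars false
set_option linter.unusedSimpArgs false
set_option linter.unusedVariables false

namespace Pool.Agent.J6H92.FQ

open Finset Matrix MeasureTheory Filter Topology
open scoped ENNReal

lemma tail_of_deriv {S g : ℝ → ℝ} (hd : ∀ t, HasDerivAt S (-g t) t) (hg : ∀ t, 0 ≤ g t)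
    (hgm : Measurable g) (hlim : Tendsto S atTop (𝓝 0)) (hS : ∀ t, S t ≤ 1) :
    (∀ t, tl (fun s => ENNReal.ofReal (g s)) t = ENNReal.ofReal (S t)) ∧
      ∫⁻ t, ENNReal.ofReal (g t) ≤ 1 := by
  have h1 : ∀ t, tl (fun s => ENNReal.ofReal (g s)) t = ENNReal.ofReal (S t) := by
    intro t
    have hi : IntegrableOn (fun x => -g x) (Set.Ioi t) :=
      integrableOn_Ioi_deriv_of_nonpos' (fun x _ => hd x) (fun x _ => by linarith [hg x]) hlim
    have hi' : IntegrableOn g (Set.Ioi t) := by
      have := hi.neg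
      simpa using this
    have he := integral_Ioi_of_hasDerivAt_of_nonpos' (a := t) (fun x _ => hd x)
      (fun x _ => by linarith [hg x]) hlim
    rw [integral_neg, zero_sub, neg_inj] at he
    unfold tl
    rw [← ofReal_integral_eq_lintegral_ofReal hi' (Eventually.of_forall hg), he]
  refine ⟨h1, ?_⟩
  have hcov : AECover (volume : Measure ℝ) atTop (fun n : ℕ => Set.Ioi (-(n:ℝ))) := by
    apply aecover_Ioi
    exact tendsto_neg_atTop_atBot.comp tendsto_natCast_atTop_atTop
  have ht := hcov.lintegral_tendsto_of_countably_generated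
    (f := fun t => ENNReal.ofReal (g t)) (hgm.ennreal_ofReal.aemeasurable)
  refine le_of_tendsto' ht fun n => ?_
  have := h1 (-(n:ℝ))
  unfold tl at this
  rw [this]
  exact ENNReal.ofReal_le_one.mpr (hS _)

/-- Gaussian density -/
noncomputable def ph (s : ℝ) : ℝ := (√(2 * Real.pi))⁻¹ * Real.exp (-(1/2) * s ^ 2)

lemma ph_pos (s : ℝ) : 0 < ph s := by unfold ph; positivity

lemma ph_cont : Continuous ph := by unfold ph; fun_prop

lemma ph_int : Integrable ph := by
  unfold ph
  exact (integrable_exp_neg_mul_sq (by norm_num : (0:ℝ) < 1/2)).const_mul _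

lemma ph_one : ∫ s, ph s = 1 := by
  unfold ph
  rw [integral_const_mul, integral_gaussian]
  have : Real.pi / (1/2) = 2 * Real.pi := by ring
  rw [this, inv_mul_cancel₀]
  positivity

/-- Gaussian tail -/
noncomputable def Qf (s : ℝ) : ℝ := ∫ u in Set.Ioi s, ph u

lemma Qf_eq (s : ℝ) : Qf s = Qf 0 - ∫ u in (0:ℝ)..s, ph u := by
  unfold Qf
  have := intervalIntegral.integral_interval_add_Ioi (a := (0:ℝ)) (b := s) ph_int.integrableOn ph_int.integrableOn
  linarith

lemma Qf_deriv (s : ℝ) : HasDerivAt Qf (-ph s) s := by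
  have h1 : HasDerivAt (fun s => ∫ u in (0:ℝ)..s, ph u) (ph s) s :=
    intervalIntegral.integral_hasDerivAt_right (ph_cont.intervalIntegrable _ _)
      ph_cont.stronglyMeasurable.stronglyMeasurableAtFilter ph_cont.continuousAt
  have h2 : Qf = fun s => Qf 0 - ∫ u in (0:ℝ)..s, ph u := by
    funext s; exact Qf_eq s
  rw [h2]
  exact h1.const_sub (Qf 0)

lemma Qf_pos (s : ℝ) : 0 < Qf s := by
  unfold Qf
  rw [setIntegral_pos_iff_support_of_nonneg_ae]
  · have : Function.support ph = Set.univ := by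
      ext u; simp [(ph_pos u).ne']
    rw [this, Set.univ_inter]
    simp
  · exact Eventually.of_forall fun u => (ph_pos u).le
  · exact ph_int.integrableOn

lemma Qf_le (s : ℝ) : Qf s ≤ 1 := by
  rw [← ph_one]
  exact setIntegral_le_integral ph_int (Eventually.of_forall fun u => (ph_pos u).le)

lemma Qf_lim : Tendsto Qf atTop (𝓝 0) := by
  have h1 := intervalIntegral_tendsto_integral_Ioi (0:ℝ) ph_int.integrableOn tendsto_id
  have h2 : Qf = fun s => Qf 0 - ∫ u in (0:ℝ)..s, ph u := by
    funext s; exact Qf_eq s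
  have h3 : Tendsto (fun s => Qf 0 - ∫ u in (0:ℝ)..s, ph u) atTop (𝓝 (Qf 0 - Qf 0)) :=
    tendsto_const_nhds.sub h1
  rw [sub_self] at h3
  rw [h2]
  exact h3

/-- the constant -/
noncomputable def Cc (p : ℝ) : ℝ := (p / (2 * Real.pi)) ^ (p / 2)

/-- a density and a lower bound of its tail -/
structure Good (p : ℝ) (g S : ℝ → ℝ) : Prop where
  meas : Measurable g
  nonneg : ∀ t, 0 ≤ g t
  le_one : ∫⁻ t, ENNReal.ofReal (g t) ≤ 1
  nonneg' : ∀ t, 0 ≤ S t
  tail : ∀ t, ENNReal.ofReal (S t) ≤ tl (fun s => ENNReal.ofReal (g s)) t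
  low : ∀ t, Cc p * Real.exp (-t ^ 2 / 2) ≤ g t ^ p * S t ^ (1 - p)

lemma good_pos {p : ℝ} (h0 : 0 < p) (h1 : p ≤ 1) : ∃ g S, Good p g S := by
  set r := √p with hr
  have hr0 : 0 < r := Real.sqrt_pos.mpr h0
  have hr2 : r * r = p := Real.mul_self_sqrt h0.le
  set S : ℝ → ℝ := fun t => Qf (t / r) ^ p with hS
  set g : ℝ → ℝ := fun t => r * Qf (t / r) ^ (p - 1) * ph (t / r) with hg
  have hQc : Continuous Qf := by
    refine continuous_iff_continuousAt.mpr fun s => (Qf_deriv s).continuousAt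
  have hgc : Continuous g := by
    have h2 : Continuous fun t : ℝ => Qf (t / r) := hQc.comp (continuous_id.div_const r)
    have h3 : Continuous fun t : ℝ => ph (t / r) := ph_cont.comp (continuous_id.div_const r)
    refine (continuous_const.mul ?_).mul h3
    exact h2.rpow_const fun t => Or.inl (Qf_pos _).ne'
  have hd : ∀ t, HasDerivAt S (-g t) t := by
    intro t
    have h2 : HasDerivAt (fun t : ℝ => t / r) (1 / r) t := (hasDerivAt_id t).div_const r
    have h3 : HasDerivAt (fun t : ℝ => Qf (t / r)) (-ph (t / r) * (1 / r)) t :=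
      HasDerivAt.comp (h := fun t : ℝ => t / r) (h₂ := Qf) t (h₂' := -ph (t / r))
        (Qf_deriv (t / r)) h2
    have h4 := h3.rpow_const (p := p) (Or.inl (Qf_pos (t / r)).ne')
    convert h4 using 1
    simp only [hg]
    field_simp
    rw [sq, hr2]
  have hgn : ∀ t, 0 ≤ g t := fun t => by
    have := Qf_pos (t / r)
    have := ph_pos (t / r)
    positivity
  have hlim : Tendsto S atTop (𝓝 0) := by
    have h2 : Tendsto (fun t : ℝ => t / r) atTop atTop := tendsto_id.atTop_div_const hr0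
    have h3 : Tendsto (fun t : ℝ => Qf (t / r)) atTop (𝓝 0) := Qf_lim.comp h2
    have h4 := h3.rpow_const (p := p) (Or.inr h0.le)
    rwa [Real.zero_rpow h0.ne'] at h4
  have hS1 : ∀ t, S t ≤ 1 := fun t => Real.rpow_le_one (Qf_pos _).le (Qf_le _) h0.le
  obtain ⟨k1, k2⟩ := tail_of_deriv hd hgn hgc.measurable hlim hS1
  refine ⟨g, S, hgc.measurable, hgn, k2, fun t => Real.rpow_nonneg (Qf_pos _).le _,
    fun t => (k1 t).ge, fun t => ?_⟩
  have hQ := Qf_pos (t / r)
  have hp := ph_pos (t / r)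
  apply le_of_eq
  simp only [hg, hS]
  symm
  rw [Real.mul_rpow (by positivity) hp.le, Real.mul_rpow hr0.le (by positivity),
    ← Real.rpow_mul hQ.le, ← Real.rpow_mul hQ.le]
  have e1 : r ^ p * Qf (t / r) ^ ((p - 1) * p) * ph (t / r) ^ p * Qf (t / r) ^ (p * (1 - p)) =
      r ^ p * ph (t / r) ^ p * (Qf (t / r) ^ ((p - 1) * p) * Qf (t / r) ^ (p * (1 - p))) := by ring
  rw [e1, ← Real.rpow_add hQ]
  have e2 : (p - 1) * p + p * (1 - p) = 0 := by ring
  rw [e2, Real.rpow_zero, mul_one]
  unfold ph Cc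
  rw [Real.mul_rpow (by positivity) (Real.exp_pos _).le, ← Real.exp_mul]
  have e3 : -(1 / 2) * (t / r) ^ 2 * p = -t ^ 2 / 2 := by
    rw [div_pow, sq r, hr2]; field_simp
  rw [e3, ← mul_assoc]
  congr 1
  rw [hr, Real.sqrt_eq_rpow, Real.sqrt_eq_rpow, ← Real.rpow_neg_one, ← Real.rpow_mul (by positivity),
    ← Real.rpow_mul (by positivity), ← Real.rpow_mul (by positivity), Real.div_rpow (by positivity) (by positivity)]
  rw [show (1 / 2 * (-1 * p) : ℝ) = -(p / 2) by ring, Real.rpow_neg (by positivity),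
    show (1 / 2 * p : ℝ) = p / 2 by ring]
  rfl

lemma good_zero : ∃ g S, Good 0 g S := by
  have hd : ∀ t : ℝ, HasDerivAt (fun t : ℝ => Real.exp (-t ^ 2 / 2)) (-(t * Real.exp (-t ^ 2 / 2))) t := by
    intro t
    have h1 : HasDerivAt (fun t : ℝ => -t ^ 2 / 2) (-t) t := by
      have h := (hasDerivAt_pow 2 t).const_mul (-1 / 2 : ℝ)
      have e : (fun t : ℝ => -t ^ 2 / 2) = fun y : ℝ => (-1 / 2) * y ^ 2 := by funext y; ring
      rw [e]
      exact h.congr_deriv (by norm_num; ring)
    have h2 := h1.exp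
    convert h2 using 1
    ring
  have hlim : Tendsto (fun t : ℝ => Real.exp (-t ^ 2 / 2)) atTop (𝓝 0) := by
    apply Real.tendsto_exp_atBot.comp
    have h3 : Tendsto (fun t : ℝ => t ^ 2 / 2) atTop atTop :=
      (tendsto_pow_atTop (by norm_num)).atTop_div_const (by norm_num)
    have h4 := tendsto_neg_atTop_atBot.comp h3
    refine h4.congr fun t => ?_
    simp only [Function.comp_apply]
    ring
  have key : ∀ a : ℝ, 0 ≤ a → ∫⁻ s in Set.Ioi a, ENNReal.ofReal (s * Real.exp (-s ^ 2 / 2)) =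
      ENNReal.ofReal (Real.exp (-a ^ 2 / 2)) := by
    intro a ha
    have hneg : ∀ x ∈ Set.Ioi a, -(x * Real.exp (-x ^ 2 / 2)) ≤ 0 := by
      intro x hx
      have : 0 < x := lt_of_le_of_lt ha hx
      have := mul_pos this (Real.exp_pos (-x ^ 2 / 2))
      linarith
    have hi := integrableOn_Ioi_deriv_of_nonpos' (a := a) (fun x _ => hd x) hneg hlim
    have hi' : IntegrableOn (fun s : ℝ => s * Real.exp (-s ^ 2 / 2)) (Set.Ioi a) := by
      have := hi.neg
      simpa using this
    have he := integral_Ioi_of_hasDerivAt_of_nonpos' (a := a) (fun x _ => hd x) hneg hlim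
    rw [integral_neg, zero_sub, neg_inj] at he
    rw [← ofReal_integral_eq_lintegral_ofReal hi', he]
    rw [EventuallyLE, ae_restrict_iff' measurableSet_Ioi]
    refine Eventually.of_forall fun x hx => ?_
    have := hneg x hx
    simp only [Pi.zero_apply]
    linarith
  set g : ℝ → ℝ := (Set.Ioi (0:ℝ)).indicator (fun s => s * Real.exp (-s ^ 2 / 2)) with hg
  have hgm : Measurable g := by
    refine Measurable.indicator ?_ measurableSet_Ioi
    fun_prop
  have hgo : (fun s => ENNReal.ofReal (g s)) =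
      (Set.Ioi (0:ℝ)).indicator (fun s => ENNReal.ofReal (s * Real.exp (-s ^ 2 / 2))) := by
    funext s
    by_cases hs : s ∈ Set.Ioi (0:ℝ)
    · rw [hg, Set.indicator_of_mem hs, Set.indicator_of_mem hs]
    · rw [hg, Set.indicator_of_notMem hs, Set.indicator_of_notMem hs, ENNReal.ofReal_zero]
  refine ⟨g, fun t => Real.exp (-t ^ 2 / 2), hgm, ?_, ?_, fun t => (Real.exp_pos _).le, ?_, ?_⟩
  · intro t
    apply Set.indicator_nonneg
    intro s hs
    exact mul_nonneg (le_of_lt hs) (Real.exp_pos _).le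
  · rw [hgo, lintegral_indicator measurableSet_Ioi, key 0 le_rfl]
    simp
  · intro t
    rw [hgo]
    unfold tl
    have h1 : ∫⁻ s in Set.Ioi (max t 0), ENNReal.ofReal (s * Real.exp (-s ^ 2 / 2)) ≤
        ∫⁻ s in Set.Ioi t, (Set.Ioi (0:ℝ)).indicator
          (fun s => ENNReal.ofReal (s * Real.exp (-s ^ 2 / 2))) s := by
      rw [← lintegral_indicator measurableSet_Ioi, ← lintegral_indicator measurableSet_Ioi]
      refine lintegral_mono fun s => ?_
      by_cases hs : s ∈ Set.Ioi (max t 0)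
      · have h2 : s ∈ Set.Ioi t := Set.mem_Ioi.mpr (lt_of_le_of_lt (le_max_left t 0) (Set.mem_Ioi.mp hs))
        have h3 : s ∈ Set.Ioi (0:ℝ) :=
          Set.mem_Ioi.mpr (lt_of_le_of_lt (le_max_right t 0) (Set.mem_Ioi.mp hs))
        rw [Set.indicator_of_mem hs, Set.indicator_of_mem h2, Set.indicator_of_mem h3]
      · rw [Set.indicator_of_notMem hs]
        exact zero_le
    refine le_trans ?_ h1
    rw [key _ (le_max_right _ _)]
    apply ENNReal.ofReal_le_ofReal
    apply Real.exp_le_exp.mpr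
    rcases le_total t 0 with h | h
    · rw [max_eq_right h]
      nlinarith [sq_nonneg t]
    · rw [max_eq_left h]
  · intro t
    have e1 : Cc 0 = 1 := by unfold Cc; simp
    rw [e1, one_mul, Real.rpow_zero, one_mul, sub_zero, Real.rpow_one]

theorem good (p : ℝ) (h0 : 0 ≤ p) (h1 : p ≤ 1) : ∃ g S, Good p g S := by
  rcases h0.eq_or_lt with rfl | h
  · exact good_zero
  · exact good_pos h h1

end Pool.Agent.J6H92.FQ
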