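import Pool.Agent.J6H92.FQ.Comp

/-!
# The tile inequality

For a Parseval frame `x`, its completion `z`, the feasible bases `I` and functions `f_j ≥ 0`
`∑_I |det x_I| ∫ ∏_{j ∉ I} f_j(⟨z_j, q⟩) ∏_{j ∈ I} (∫_{⟨z_j, q⟩}^∞ f_j) dq ≤ ∏_j ∫ f_j`.
-/

set_option autoImplicit false
set_option linter.unusedSectionVars false
set_option linter.unusedSimpArgs false
set_option linter.unusedVariables false

namespace Pool.Agent.J6H92.FQ

open Finset Matrix MeasureTheory Pool.Agent.Helper484 Pool.Agent.Y568.FL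
open scoped ENNReal

variable {N d m : ℕ}

lemma lint_prod' : ∀ (n : ℕ) (f : Fin n → ℝ → ℝ≥0∞) (_ : ∀ i, Measurable (f i)),
    (∫⁻ s : Fin n → ℝ, ∏ i, f i (s i)) = ∏ i, ∫⁻ t, f i t := by
  intro n
  induction n with
  | zero =>
    intro f hf
    rw [Measure.volume_pi_eq_dirac (fun i => i.elim0), lintegral_dirac]
    simp
  | succ n ih =>
    intro f hf
    have hm : Measurable fun s : Fin (n + 1) → ℝ => ∏ i, f i (s i) :=
      Finset.measurable_prod _ fun i _ => (hf i).comp (measurable_pi_apply i)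
    rw [Pool.Agent.Helper734.IB.lintegral_succ n _ hm]
    have e : ∀ a : ℝ, (∫⁻ v : Fin n → ℝ, ∏ i, f i ((Fin.cons a v : Fin (n + 1) → ℝ) i)) =
        f 0 a * ∏ i : Fin n, ∫⁻ t, f i.succ t := by
      intro a
      simp only [Fin.prod_univ_succ, Fin.cons_zero, Fin.cons_succ]
      rw [lintegral_const_mul, ih _ (fun i => hf i.succ)]
      exact Finset.measurable_prod _ fun i _ => (hf i.succ).comp (measurable_pi_apply i)
    simp only [e]
    rw [lintegral_mul_const _ (hf 0), Fin.prod_univ_succ]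

/-- the tail integral -/
noncomputable def tl (f : ℝ → ℝ≥0∞) (t : ℝ) : ℝ≥0∞ := ∫⁻ s in Set.Ioi t, f s

lemma tl_eq (f : ℝ → ℝ≥0∞) (t : ℝ) :
    ∫⁻ s : ℝ, (if 0 < s then f (s + t) else 0) = tl f t := by
  unfold tl
  rw [← lintegral_indicator measurableSet_Ioi]
  rw [← lintegral_add_right_eq_self (μ := volume) ((Set.Ioi t).indicator f) t]
  refine lintegral_congr fun s => ?_
  by_cases hs : 0 < s
  · rw [if_pos hs, Set.indicator_of_mem]
    simpa using hs
  · rw [if_neg hs, Set.indicator_of_notMem]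
    simpa using hs

/-- integrand -/
noncomputable def gI (z : Fin N → Fin m → ℝ) (f : Fin N → ℝ → ℝ≥0∞) (I : Fin d → Fin N)
    (q : Fin m → ℝ) : ℝ≥0∞ :=
  ∏ j, (if j ∈ univ.image I then tl (f j) (z j ⬝ᵥ q) else f j (z j ⬝ᵥ q))

lemma sp_not {I : Fin d → Fin N} (l : Fin d → ℝ) {j : Fin N} (h : j ∉ univ.image I) :
    sp I l j = 0 := by
  apply Finset.sum_eq_zero
  intro a _
  apply if_neg
  intro h'
  exact h (Finset.mem_image.mpr ⟨a, mem_univ a, h'⟩)

lemma sp_at {I : Fin d → Fin N} (hI : Function.Injective I) (l : Fin d → ℝ) (a : Fin d) :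
    sp I l (I a) = l a := by
  unfold sp
  rw [Finset.sum_eq_single a]
  · simp
  · intro c _ hc
    exact if_neg fun h => hc (hI h)
  · intro h; exact absurd (mem_univ a) h

lemma prod_split {I : Fin d → Fin N} (hI : Function.Injective I) (g h : Fin N → ℝ≥0∞) :
    ∏ j, (if j ∈ univ.image I then g j else h j) =
      (∏ j ∈ univ.filter (fun j => j ∉ univ.image I), h j) * ∏ a, g (I a) := by
  classical
  rw [Finset.prod_ite]
  have e1 : univ.filter (fun j => j ∈ univ.image I) = univ.image I := by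
    ext j; simp
  rw [e1, Finset.prod_image (fun a _ c _ h => hI h), mul_comm]

lemma inner_lambda {f : Fin N → ℝ → ℝ≥0∞} (hf : ∀ j, Measurable (f j)) (z : Fin N → Fin m → ℝ)
    {I : Fin d → Fin N} (hI : Function.Injective I) (q : Fin m → ℝ) :
    ∫⁻ l : Fin d → ℝ, (if ∀ a, 0 < l a then ∏ j, f j (sp I l j + z j ⬝ᵥ q) else 0) =
      gI z f I q := by
  classical
  have e : ∀ l : Fin d → ℝ, (if ∀ a, 0 < l a then ∏ j, f j (sp I l j + z j ⬝ᵥ q) else 0) =
      (∏ j ∈ univ.filter (fun j => j ∉ univ.image I), f j (z j ⬝ᵥ q)) *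
        ∏ a, (if 0 < l a then f (I a) (l a + z (I a) ⬝ᵥ q) else 0) := by
    intro l
    by_cases hl : ∀ a, 0 < l a
    · rw [if_pos hl]
      have h1 : ∀ a, (if 0 < l a then f (I a) (l a + z (I a) ⬝ᵥ q) else 0) =
          f (I a) (sp I l (I a) + z (I a) ⬝ᵥ q) := by
        intro a
        rw [if_pos (hl a), sp_at hI]
      simp only [h1]
      have h2 := prod_split hI (fun j => f j (sp I l j + z j ⬝ᵥ q))
        (fun j => f j (sp I l j + z j ⬝ᵥ q))
      simp only [ite_self] at h2
      rw [h2]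
      congr 1
      refine Finset.prod_congr rfl fun j hj => ?_
      rw [sp_not l (Finset.mem_filter.mp hj).2, zero_add]
    · rw [if_neg hl]
      push Not at hl
      obtain ⟨a, ha⟩ := hl
      rw [Finset.prod_eq_zero (i := a) (mem_univ a) (if_neg (not_lt.mpr ha)), mul_zero]
  simp only [e]
  have hm : ∀ a, Measurable fun t : ℝ => (if 0 < t then f (I a) (t + z (I a) ⬝ᵥ q) else 0) := by
    intro a
    refine Measurable.ite measurableSet_Ioi ?_ measurable_const
    exact (hf (I a)).comp (measurable_id.add_const _)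
  rw [lintegral_const_mul]
  · rw [lint_prod' d (fun a t => if 0 < t then f (I a) (t + z (I a) ⬝ᵥ q) else 0) hm]
    simp only [tl_eq]
    rw [gI, prod_split hI (fun j => tl (f j) (z j ⬝ᵥ q)) (fun j => f j (z j ⬝ᵥ q))]
  · exact Finset.measurable_prod _ fun a _ => (hm a).comp (measurable_pi_apply a)

lemma shift_eq {x : Fin N → Fin d → ℝ} {z : Fin N → Fin m → ℝ} (hco : Co x z)
    (I : Fin d → Fin N) (l : Fin d → ℝ) (q : Fin m → ℝ) (j : Fin N) :
    x j ⬝ᵥ (∑ a, l a • x (I a)) + z j ⬝ᵥ q =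
      sp I l j + z j ⬝ᵥ (q - ∑ a, l a • z (I a)) := by
  have h1 : ∀ a, x j ⬝ᵥ x (I a) = (if I a = j then 1 else 0) - z j ⬝ᵥ z (I a) := by
    intro a
    have := hco.row j (I a)
    have e : (if j = I a then (1:ℝ) else 0) = if I a = j then 1 else 0 := by
      simp [eq_comm]
    rw [e] at this
    linarith
  rw [dotProduct_sub, dotProduct_sum, dotProduct_sum]
  simp only [dotProduct_smul, h1, smul_eq_mul, mul_sub, Finset.sum_sub_distrib, sp]
  have : ∀ a, l a * (if I a = j then (1:ℝ) else 0) = if I a = j then l a else 0 := by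
    intro a; split_ifs <;> simp
  simp only [this]
  ring

/-- change of variables on a cone -/
lemma cone_int {x : Fin N → Fin d → ℝ} {I : Fin d → Fin N} (h : D x I ≠ 0)
    (Φ : (Fin d → ℝ) → ℝ≥0∞) (hΦ : Measurable Φ) :
    ∫⁻ y, (Cn x I).indicator Φ y = ENNReal.ofReal |D x I| *
      ∫⁻ l : Fin d → ℝ, (if ∀ a, 0 < l a then Φ (∑ a, l a • x (I a)) else 0) := by
  classical
  have hdet : ((A x I)⁻¹).det ≠ 0 := by
    rw [Matrix.det_nonsing_inv, Ring.inverse_eq_inv]
    exact inv_ne_zero h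
  have h1 := Real.map_matrix_volume_pi_eq_smul_volume_pi hdet
  have hlin : Measurable fun l : Fin d → ℝ => ∑ a, l a • x (I a) := by
    have : Continuous fun l : Fin d → ℝ => ∑ a, l a • x (I a) := by fun_prop
    exact this.measurable
  have hset : MeasurableSet {l : Fin d → ℝ | ∀ a, 0 < l a} := by
    have : {l : Fin d → ℝ | ∀ a, 0 < l a} = ⋂ a, {l : Fin d → ℝ | 0 < l a} := by
      ext l; simp
    rw [this]
    exact MeasurableSet.iInter fun a => measurableSet_lt measurable_const (measurable_pi_apply a)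
  have hG : Measurable fun l : Fin d → ℝ =>
      (if ∀ a, 0 < l a then Φ (∑ a, l a • x (I a)) else 0) :=
    Measurable.ite hset (hΦ.comp hlin) measurable_const
  have h2 : ∫⁻ y, (Cn x I).indicator Φ y =
      ∫⁻ l, (if ∀ a, 0 < l a then Φ (∑ a, l a • x (I a)) else 0)
        ∂(Measure.map (Matrix.toLin' (A x I)⁻¹) volume) := by
    rw [lintegral_map hG]
    · refine lintegral_congr fun y => ?_
      have e1 : (Matrix.toLin' (A x I)⁻¹) y = Lam x I y := rfl
      rw [e1, sum_Lam h]
      by_cases hy : ∀ a, 0 < Lam x I y a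
      · rw [if_pos hy, Set.indicator_of_mem]
        exact hy
      · rw [if_neg hy, Set.indicator_of_notMem]
        exact hy
    · exact (LinearMap.continuous_of_finiteDimensional _).measurable
  rw [h2, h1, lintegral_smul_measure, smul_eq_mul]
  congr 2
  rw [Matrix.det_nonsing_inv, Ring.inverse_eq_inv, inv_inv]
  rfl

lemma Cn_meas (x : Fin N → Fin d → ℝ) (I : Fin d → Fin N) : MeasurableSet (Cn x I) := by
  have : Cn x I = ⋂ a, {y | 0 < Lam x I y a} := by
    ext y; simp [Cn]
  rw [this]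
  exact MeasurableSet.iInter fun a => measurableSet_lt measurable_const
    ((measurable_pi_apply a).comp (Lam_meas x I))

/-- **The tile inequality.** -/
theorem tile {x : Fin N → Fin d → ℝ} {z : Fin N → Fin m → ℝ} (hco : Co x z) {b : Fin N → ℝ}
    (hgen : Gen x b) {f : Fin N → ℝ → ℝ≥0∞} (hf : ∀ j, Measurable (f j)) :
    ∑ I ∈ FF x b, ENNReal.ofReal |D x I| * ∫⁻ q, gI z f I q ≤ ∏ j, ∫⁻ t, f j t := by
  classical
  set F : (Fin N → ℝ) → ℝ≥0∞ := fun c => ∏ j, f j (c j) with hF
  have hFm : Measurable F :=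
    Finset.measurable_prod _ fun i _ => (hf i).comp (measurable_pi_apply i)
  have hlin : Measurable fun p : (Fin d → ℝ) × (Fin m → ℝ) =>
      (fun j => x j ⬝ᵥ p.1 + z j ⬝ᵥ p.2 : Fin N → ℝ) := by
    have : Continuous fun p : (Fin d → ℝ) × (Fin m → ℝ) =>
      (fun j => x j ⬝ᵥ p.1 + z j ⬝ᵥ p.2 : Fin N → ℝ) := by
      simp only [dotProduct]
      fun_prop
    exact this.measurable
  set Φ : (Fin d → ℝ) → ℝ≥0∞ := fun y => ∫⁻ q : Fin m → ℝ, F (fun j => x j ⬝ᵥ y + z j ⬝ᵥ q)
    with hΦ
  have hΦm : Measurable Φ := (hFm.comp hlin).lintegral_prod_right'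
  rw [← lint_prod' N f hf, hco.meas F hFm]
  -- the cones are disjoint
  have h1 : ∑ I ∈ FF x b, ∫⁻ y, (Cn x I).indicator Φ y ≤ ∫⁻ y, Φ y := by
    rw [← lintegral_finsetSum _ (fun I _ => hΦm.indicator (Cn_meas x I))]
    refine lintegral_mono fun y => ?_
    by_cases hy : ∃ I ∈ FF x b, y ∈ Cn x I
    · obtain ⟨I, hI, hyI⟩ := hy
      rw [Finset.sum_eq_single I]
      · rw [Set.indicator_of_mem hyI]
      · intro J hJ hne
        rw [Set.indicator_of_notMem]
        intro hyJ
        exact hne (eq_of_mem hgen (Finset.mem_filter.mp hJ).2 (Finset.mem_filter.mp hI).2 hyJ hyI)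
      · intro h; exact absurd hI h
    · push Not at hy
      rw [Finset.sum_eq_zero]
      · exact zero_le
      · intro I hI
        exact Set.indicator_of_notMem (hy I hI) _
  refine le_trans (le_of_eq ?_) h1
  refine Finset.sum_congr rfl fun I hI => ?_
  have hFz := (Finset.mem_filter.mp hI).2
  rw [cone_int hFz.2.1 Φ hΦm]
  congr 1
  have hinj := hFz.1.injective
  have h2 : ∀ l : Fin d → ℝ, Φ (∑ a, l a • x (I a)) =
      ∫⁻ q : Fin m → ℝ, ∏ j, f j (sp I l j + z j ⬝ᵥ q) := by
    intro l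
    simp only [hΦ, hF, shift_eq hco]
    exact lintegral_sub_right_eq_self (μ := volume)
      (fun q : Fin m → ℝ => ∏ j, f j (sp I l j + z j ⬝ᵥ q)) (∑ a, l a • z (I a))
  have h3 : ∀ l : Fin d → ℝ, (if ∀ a, 0 < l a then Φ (∑ a, l a • x (I a)) else 0) =
      ∫⁻ q : Fin m → ℝ, (if ∀ a, 0 < l a then ∏ j, f j (sp I l j + z j ⬝ᵥ q) else 0) := by
    intro l
    by_cases hl : ∀ a, 0 < l a
    · simp only [if_pos hl, h2]
    · simp only [if_neg hl, lintegral_zero]
  simp only [h3]
  rw [lintegral_lintegral_swap]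
  · exact lintegral_congr fun q => (inner_lambda hf z hinj q).symm
  · have hset : MeasurableSet {p : (Fin d → ℝ) × (Fin m → ℝ) | ∀ a, 0 < p.1 a} := by
      have : {p : (Fin d → ℝ) × (Fin m → ℝ) | ∀ a, 0 < p.1 a} = ⋂ a, {p | 0 < p.1 a} := by
        ext l; simp
      rw [this]
      exact MeasurableSet.iInter fun a => measurableSet_lt measurable_const
        ((measurable_pi_apply a).comp measurable_fst)
    refine (Measurable.ite hset ?_ measurable_const).aemeasurable
    refine Finset.measurable_prod _ fun j _ => (hf j).comp ?_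
    have : Continuous fun p : (Fin d → ℝ) × (Fin m → ℝ) => sp I p.1 j + z j ⬝ᵥ p.2 := by
      unfold sp
      simp only [dotProduct]
      refine Continuous.add ?_ (by fun_prop)
      refine continuous_finset_sum _ fun a _ => ?_
      by_cases h : I a = j
      · simp only [if_pos h]; fun_prop
      · simp only [if_neg h]; fun_prop
    exact this.measurable

end Pool.Agent.J6H92.FQ
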